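import Pool.Agent.helper22.GS.Spec

/-!
# Project gs (MP_561ff4_al), module N2
-/

set_option autoImplicit false

namespace Pool.Agent.GS

open Module

theorem N2_pow {F V : Type} [Field F] [AddCommGroup V] [Module F V] (z : Equiv.Perm V)
    (hz : Lin F z) (e₁ e₂ : V) (M : Matrix (Fin 2) (Fin 2) F)
    (h1 : z e₁ = M 0 0 • e₁ + M 1 0 • e₂) (h2 : z e₂ = M 0 1 • e₁ + M 1 1 • e₂) (j : ℕ) :
    (z ^ j) e₁ = (M ^ j) 0 0 • e₁ + (M ^ j) 1 0 • e₂ ∧
      (z ^ j) e₂ = (M ^ j) 0 1 • e₁ + (M ^ j) 1 1 • e₂ := by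
  induction j with
  | zero => simp
  | succ j ih =>
    obtain ⟨ih1, ih2⟩ := ih
    have hM : M ^ (j + 1) = M * M ^ j := pow_succ' M j
    constructor
    · rw [pow_succ', Equiv.Perm.mul_apply, ih1, hz.1, hz.2, hz.2, h1, h2, hM]
      simp only [Matrix.mul_apply, Fin.sum_univ_two]
      module
    · rw [pow_succ', Equiv.Perm.mul_apply, ih2, hz.1, hz.2, hz.2, h1, h2, hM]
      simp only [Matrix.mul_apply, Fin.sum_univ_two]
      module

theorem N2 : N2_stmt := by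
  intro F V _ _ _ r m σ hHD z hz e₁ e₂ hli M hdet htr h1 h2 j c hc
  obtain ⟨h3, h4⟩ := N2_pow z hz e₁ e₂ M h1 h2 j
  rw [hc] at h3 h4
  rw [LinearIndependent.pair_iff] at hli
  have h5 := hli ((M ^ j) 0 0 - c) ((M ^ j) 1 0) (by
    rw [sub_smul]
    have : (M ^ j) 0 0 • e₁ + (M ^ j) 1 0 • e₂ - c • e₁ = 0 := by rw [← h3, sub_self]
    rw [← this]
    module)
  have h6 := hli ((M ^ j) 0 1) ((M ^ j) 1 1 - c) (by
    rw [sub_smul]
    have : (M ^ j) 0 1 • e₁ + (M ^ j) 1 1 • e₂ - c • e₂ = 0 := by rw [← h4, sub_self]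
    rw [← this]
    module)
  refine hHD.ord M hdet htr j c ?_
  ext a b
  fin_cases a <;> fin_cases b
  · simpa using sub_eq_zero.mp h5.1
  · simpa using h6.1
  · simpa using h5.2
  · simpa using sub_eq_zero.mp h6.2

end Pool.Agent.GS
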